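import Pool.Agent.Helper42.FR.Stmts

/-!
# Row FN of the sheet FR (MP_3569d7_al)
-/

set_option autoImplicit false

namespace Pool.Agent.Helper32.FR

open Matrix Pool.Agent.Helper81.Fmr Pool.Agent.Helper42.FR

universe u

section
variable {F : Type u} [Field F] {b : ℕ}

theorem fn_symm {d : ℕ} {X Y : Matrix (Fin b) (Fin b) F} (h : AE d X Y) : AE d Y X := by
  unfold AE at *
  have h1 : Y - X = (-1 : Matrix (Fin b) (Fin b) F) * (X - Y) := by simp
  rw [h1]
  exact (rank_mul_le_right _ _).trans h

theorem fn_trans {d d' : ℕ} {X Y Z : Matrix (Fin b) (Fin b) F} (h : AE d X Y)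
    (h' : AE d' Y Z) : AE (d + d') X Z := by
  unfold AE at *
  have h1 : X - Z = (X - Y) + (Y - Z) := by abel
  rw [h1]
  exact (rank_add_le' _ _).trans (Nat.add_le_add h h')

theorem fn_mono {d d' : ℕ} {X Y : Matrix (Fin b) (Fin b) F} (h : AE d X Y) (hd : d ≤ d') :
    AE d' X Y := le_trans h hd

theorem fn_mid {d : ℕ} {X Y : Matrix (Fin b) (Fin b) F} (h : AE d X Y)
    (A B : Matrix (Fin b) (Fin b) F) : AE d (A * X * B) (A * Y * B) := by
  unfold AE at *
  have h1 : A * X * B - A * Y * B = A * (X - Y) * B := by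
    rw [Matrix.mul_sub, Matrix.sub_mul]
  rw [h1]
  exact (rank_mul_le_left _ _).trans ((rank_mul_le_right _ _).trans h)

theorem fn_left {d : ℕ} {X Y : Matrix (Fin b) (Fin b) F} (h : AE d X Y)
    (A : Matrix (Fin b) (Fin b) F) : AE d (A * X) (A * Y) := by
  simpa using fn_mid h A 1

theorem fn_right {d : ℕ} {X Y : Matrix (Fin b) (Fin b) F} (h : AE d X Y)
    (B : Matrix (Fin b) (Fin b) F) : AE d (X * B) (Y * B) := by
  simpa using fn_mid h 1 B

theorem fn_refl (X : Matrix (Fin b) (Fin b) F) : AE 0 X X := by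
  unfold AE; simp

/-- something commuting with all factors commutes with `f_n` -/
theorem fn_comm (s s' e x : Matrix (Fin b) (Fin b) F) (c : ℕ)
    (h : ∀ j, AE (c * 3 ^ j) (x * ej s s' e (j + 1)) (ej s s' e (j + 1) * x)) :
    ∀ n, AE (c * 3 ^ n) (x * fn s s' e n) (fn s s' e n * x) := by
  have key : ∀ n, ∃ r, 2 * r + c = c * 3 ^ n ∧ AE r (x * fn s s' e n) (fn s s' e n * x) := by
    intro n
    induction n with
    | zero =>
      refine ⟨0, by simp, ?_⟩
      simp only [fn]
      rw [Matrix.mul_one, Matrix.one_mul]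
      exact fn_refl _
    | succ n ih =>
      obtain ⟨r, hr, hA⟩ := ih
      refine ⟨r + c * 3 ^ n, ?_, ?_⟩
      · rw [pow_succ]; linarith
      · have h1 := fn_right hA (ej s s' e (n + 1))
        have h2 := fn_left (h n) (fn s s' e n)
        have h3 := fn_trans (X := x * (fn s s' e n * ej s s' e (n + 1)))
          (Y := fn s s' e n * (x * ej s s' e (n + 1)))
          (Z := (fn s s' e n * ej s s' e (n + 1)) * x)
          (by simpa only [Matrix.mul_assoc] using h1) (by simpa only [Matrix.mul_assoc] using h2)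
        exact h3
  intro n
  obtain ⟨r, hr, hA⟩ := key n
  exact fn_mono hA (by omega)

theorem st_FN (h0 : ST_GR F) : ST_FN F := by
  obtain ⟨C1, hGR⟩ := h0
  refine ⟨3 * C1 + 7, ?_⟩
  intro b d s s' t t' h h' k e hR
  have hG := hGR b d s s' t t' h h' k e hR
  have hss := hR.ss
  have hss' := hR.ss'
  -- insertion of s' s
  have ins : ∀ A B : Matrix (Fin b) (Fin b) F, AE d (A * B) (A * (s' * s) * B) := by
    intro A B
    have := fn_symm (fn_mid hss' A B)
    simpa only [Matrix.mul_one] using this
  -- x = s' e s and e_j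
  have hx : ∀ j, AE ((3 * C1 + 2) * d * 3 ^ j) (s' * e * s * ej s s' e (j + 1))
      (ej s s' e (j + 1) * (s' * e * s)) := by
    intro j
    set E := ej s s' e (j + 1) with hE
    have hG2 := (hG (j + 1)).2.2.2
    have hE2 : ej s s' e (j + 1 + 1) = s * E * s' := rfl
    rw [hE2] at hG2
    have a1 : AE d (s' * e * s * E) (s' * e * s * E * (s' * s)) := by
      have := fn_symm (fn_left hss' (s' * e * s * E))
      simpa only [Matrix.mul_one] using this
    have a2 := fn_mid hG2 s' s
    have a3 : AE d (s' * s * (E * (s' * e * s))) (E * (s' * e * s)) := by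
      have := fn_right hss' (E * (s' * e * s))
      simpa only [Matrix.one_mul] using this
    have a4 := fn_trans a1 (fn_trans (X := s' * e * s * E * (s' * s))
      (Y := s' * s * (E * (s' * e * s))) (by simpa only [Matrix.mul_assoc] using a2) a3)
    refine fn_mono a4 ?_
    have h3 : 1 ≤ 3 ^ j := Nat.one_le_pow _ _ (by norm_num)
    have h4 : d ≤ d * 3 ^ j := Nat.le_mul_of_pos_right _ h3
    have h5 : C1 * 3 ^ (j + 1) * d = 3 * C1 * d * 3 ^ j := by ring
    rw [h5]
    nlinarith
  -- 4
  have h4 : ∀ n, AE (n * d) (s * (e * fn s s' e n) * s') (fn s s' e (n + 1)) := by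
    intro n
    induction n with
    | zero =>
      have : s * (e * fn s s' e 0) * s' = fn s s' e (0 + 1) := by
        simp [fn, ej]
      rw [this]
      exact fn_mono (fn_refl _) (by omega)
    | succ n ih =>
      have a1 := ins (s * (e * fn s s' e n)) (ej s s' e (n + 1) * s')
      have a2 := fn_right ih (s * ej s s' e (n + 1) * s')
      have a3 := fn_trans (X := s * (e * (fn s s' e n * ej s s' e (n + 1))) * s')
        (Y := s * (e * fn s s' e n) * s' * (s * ej s s' e (n + 1) * s'))
        (Z := fn s s' e (n + 1) * (s * ej s s' e (n + 1) * s'))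
        (by simpa only [Matrix.mul_assoc] using a1) a2
      have : fn s s' e (n + 1 + 1) = fn s s' e (n + 1) * (s * ej s s' e (n + 1) * s') := rfl
      rw [this]
      refine fn_mono (X := s * (e * (fn s s' e n * ej s s' e (n + 1))) * s') a3 ?_
      linarith [Nat.succ_mul n d]
  have hpow : ∀ n : ℕ, n + 1 ≤ 3 ^ n := by
    intro n
    induction n with
    | zero => simp
    | succ n ih => rw [pow_succ]; omega
  intro n
  have hn := hpow n
  have hle : ∀ c, c ≤ 3 * C1 + 7 → c * d * 3 ^ n ≤ (3 * C1 + 7) * 3 ^ n * d := by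
    intro c hc
    calc c * d * 3 ^ n = c * (3 ^ n * d) := by ring
      _ ≤ (3 * C1 + 7) * (3 ^ n * d) := Nat.mul_le_mul_right _ hc
      _ = _ := by ring
  refine ⟨?_, ?_, ?_, ?_, ?_⟩
  · refine fn_mono (fn_comm s s' e h (C1 * d) (fun j => ?_) n) (hle C1 (by omega))
    exact fn_mono (hG j).2.2.1 (le_of_eq (by ring))
  · refine fn_mono (fn_comm s s' e e (C1 * d) (fun j => ?_) n) (hle C1 (by omega))
    exact fn_mono (hG j).2.2.2 (le_of_eq (by ring))
  · exact fn_mono (fn_comm s s' e (s' * e * s) ((3 * C1 + 2) * d) hx n)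
      (hle (3 * C1 + 2) (by omega))
  · refine fn_mono (h4 n) ?_
    refine le_trans ?_ (hle 1 (by omega))
    rw [one_mul, mul_comm]
    exact Nat.mul_le_mul_left _ (by omega)
  · -- e x ~ x e
    have b1 : AE (3 * d) (e * (s' * e * s)) (s' * e * s * e) := by
      have c1 : AE d (e * (s' * e * s)) (s' * s * (e * (s' * e * s))) := by
        have := fn_symm (fn_right hss' (e * (s' * e * s)))
        simpa only [Matrix.one_mul] using this
      have c2 := fn_mid (fn_symm hR.ee1) s' s
      have c3 : AE d (s' * e * s * e * (s' * s)) (s' * e * s * e) := by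
        have := fn_left hss' (s' * e * s * e)
        simpa only [Matrix.mul_one] using this
      have c4 := fn_trans c1 (fn_trans (X := s' * s * (e * (s' * e * s)))
        (Y := s' * e * s * e * (s' * s)) (by simpa only [Matrix.mul_assoc] using c2) c3)
      exact fn_mono c4 (by omega)
    have b2 := fn_mid (fn_right b1 (fn s s' e n)) s s'
    -- s x (e f) s' ~ e (s (e f) s')
    have b3 : AE d (s * (s' * e * s * (e * fn s s' e n)) * s')
        (e * (s * (e * fn s s' e n) * s')) := by
      have := fn_right hss (e * (s * (e * fn s s' e n) * s'))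
      simpa only [Matrix.mul_assoc, Matrix.one_mul] using this
    have b4 := fn_left (h4 n) e
    have b5 : AE (3 * d + (d + n * d)) (s * (e * (s' * e * s) * fn s s' e n) * s')
        (e * fn s s' e (n + 1)) :=
      fn_trans b2 (fn_trans (by simpa only [Matrix.mul_assoc] using b3) b4)
    have b6 := fn_trans (fn_mid b5 s s') (h4 (n + 1))
    refine fn_mono b6 ?_
    refine le_trans ?_ (hle 7 (by omega))
    nlinarith

end

end Pool.Agent.Helper32.FR
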